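import Pool.Agent.Work.MP_4b551e_an.Geo

/-!
# MP_4b551e_an: statements of the foundations (helper35)
-/

open MeasureTheory Set Metric
open scoped ENNReal NNReal Pointwise RealInnerProductSpace

namespace Pool.Agent.Robin

/-! ### A: eigenvalue, scaling -/

def S_A1 : Prop := ∀ (k A : ℝ) (Ω : Set E2), Admissible Ω → 0 < A →
  volume Ω = ENNReal.ofReal A →
  (∀ ε > 0, ∃ u : E2 → ℝ, (∃ K : ℝ≥0, LipschitzWith K u) ∧ (∀ x, 1 ≤ u x) ∧ Qk k Ω u ≤ ε) →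
  lam (-1) Ω ≤ ((-(k ^ 2) : ℝ) : EReal)

def S_A2 : Prop := ∀ (t : ℝ) (Ω : Set E2) (u : E2 → ℝ), 0 < t →
  (∃ K : ℝ≥0, LipschitzWith K u) →
  rayleigh (-t) Ω u = t ^ 2 * rayleigh (-1) (t • Ω) (fun x => u (t⁻¹ • x))

def S_A3 : Prop := ∀ (t : ℝ) (Ω : Set E2), 0 < t → Admissible Ω → Admissible (t • Ω)

def S_A4 : Prop := ∀ r R : ℝ, 0 < r → r < R → Admissible (annulus r R)

def S_A5 : Prop := ∀ r R : ℝ, 0 ≤ r → r ≤ R →
  volume (annulus r R) = ENNReal.ofReal (Real.pi * (R ^ 2 - r ^ 2))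

def S_A6 : Prop := MainScaled → MainTheorem

/-! ### B: Lipschitz boundaries -/

def S_B1 : Prop := ∀ Ω : Set E2, Admissible Ω → LipClosed Ωᶜ

def S_B1f : Prop := ∀ (K : Set E2) (p : E2) (L : E2 ≃ₗᵢ[ℝ] E2) (f : ℝ → ℝ) (C : ℝ≥0) (a b : ℝ),
  IsClosed K → Chart K p L f C a b →
  ∀ x, |cx L p x| < a → |cy L p x| < b → (x ∈ frontier K ↔ cy L p x = f (cx L p x))

def S_B2 : Prop := ∀ K : Set E2, LipClosed K → IsCompact (frontier K) →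
  μH[1] (frontier K) < ⊤ ∧ volume (frontier K) = 0

def S_B3a : Prop := ∀ Ω : Set E2, Admissible Ω →
  IsConnected (outer Ω) ∧ (∃ M : ℝ, ∀ x : E2, M ≤ ‖x‖ → x ∈ outer Ω) ∧
  ∀ x ∈ outer Ω, outer Ω = connectedComponentIn Ωᶜ x

def S_B3b : Prop := ∀ Ω : Set E2, Admissible Ω → ∀ x ∈ Ωᶜ, ∃ δ > 0,
  Ωᶜ ∩ ball x δ ⊆ connectedComponentIn Ωᶜ x

def S_B3c : Prop := ∀ Ω : Set E2, Admissible Ω →
  {C : Set E2 | ∃ x ∈ Ωᶜ, C = connectedComponentIn Ωᶜ x}.Finite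

def S_B3d : Prop := ∀ Ω : Set E2, Admissible Ω → ∀ x ∈ Ωᶜ,
  LipClosed (connectedComponentIn Ωᶜ x) ∧
  frontier (connectedComponentIn Ωᶜ x) = frontier Ω ∩ connectedComponentIn Ωᶜ x ∧
  (frontier (connectedComponentIn Ωᶜ x)).Nonempty

def S_B3e : Prop := ∀ Ω : Set E2, Admissible Ω → Admissible (fill Ω)

def S_B3 : Prop := ∀ Ω : Set E2, Admissible Ω → ∃ (N : ℕ) (H : Fin N → Set E2), Decomp Ω N H

/-- Eilenberg inequality for 1-Lipschitz functions (with a measurable majorant `G`). -/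
def S_Eil : Prop := ∀ (S : Set E2) (φ : E2 → ℝ) (f : E2 → ℝ≥0∞), MeasurableSet S →
  LipschitzWith 1 φ → Measurable f →
  ∃ G : ℝ → ℝ≥0∞, Measurable G ∧ (∀ c, ∑' x : (S ∩ φ ⁻¹' {c} : Set E2), f x ≤ G c) ∧
    ∫⁻ c : ℝ, G c ≤ ∫⁻ x in S, f x ∂(μH[1])

/-- Eilenberg inequality with a local Lipschitz constant `ω`. -/
def S_EilW : Prop := ∀ (S : Set E2) (φ : E2 → ℝ) (ω : E2 → ℝ≥0) (f : E2 → ℝ≥0∞) (M : ℝ≥0),
  MeasurableSet S → μH[1] S < ⊤ → Measurable f → (∀ x ∈ S, f x ≤ M) → (∀ x ∈ S, ω x ≤ M) →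
  ContinuousOn φ S → ContinuousOn ω S →
  (∀ x ∈ S, ∀ ε > 0, ∃ δ > 0, ∀ y ∈ S, ∀ z ∈ S, dist y x < δ → dist z x < δ →
    |φ y - φ z| ≤ ((ω x : ℝ) + ε) * dist y z) →
  ∃ G : ℝ → ℝ≥0∞, Measurable G ∧ (∀ c, ∑' x : (S ∩ φ ⁻¹' {c} : Set E2), f x ≤ G c) ∧
    ∫⁻ c : ℝ, G c ≤ ∫⁻ x in S, f x * ω x ∂(μH[1])

/-- Area formula lower bound for Lipschitz graphs. -/
def S_Graph : Prop := ∀ (f : ℝ → ℝ) (C : ℝ≥0) (T : Set ℝ), LipschitzWith C f → MeasurableSet T →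
  ∫⁻ t in T, ENNReal.ofReal (Real.sqrt (1 + (deriv f t) ^ 2)) ≤
    μH[1] ((fun t => (!₂[t, f t] : E2)) '' T)

/-- Banach indicatrix inequality along a Lipschitz graph, direction `ν`
(with a measurable majorant). -/
def S_Ban : Prop := ∀ (f : ℝ → ℝ) (C : ℝ≥0) (T : Set ℝ) (ν : E2), LipschitzWith C f →
  MeasurableSet T →
  ∃ G : ℝ → ℝ≥0∞, Measurable G ∧
    (∀ c, crs ((fun t => (!₂[t, f t] : E2)) '' T) ν c ≤ G c) ∧
    ∫⁻ c : ℝ, G c ≤ ∫⁻ t in T, ENNReal.ofReal |ν 0 + ν 1 * deriv f t|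

/-- Crofton inequality for `n` equidistributed directions (with measurable majorants). -/
def S_Crofton : Prop := ∀ (K S : Set E2), LipClosed K → IsCompact (frontier K) →
  MeasurableSet S → S ⊆ frontier K → ∀ (n : ℕ) (φ : ℝ), 0 < n →
  ∃ G : ℕ → ℝ → ℝ≥0∞, (∀ j, Measurable (G j)) ∧
    (∀ (j : ℕ) (c : ℝ), crs S (dirv (φ + j * Real.pi / n)) c ≤ G j c) ∧
    ∑ j ∈ Finset.range n, ∫⁻ c : ℝ, G j c ≤
      ENNReal.ofReal (1 / Real.sin (Real.pi / (2 * n))) * μH[1] S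

/-- Almost every line crosses the boundary transversally in finitely many points. -/
def S_Trans : Prop := ∀ (K : Set E2) (ν : E2), LipClosed K → IsCompact (frontier K) →
  ‖ν‖ = 1 → ∀ᵐ c : ℝ, (frontier K ∩ line ν c).Finite ∧
    ∀ p ∈ frontier K ∩ line ν c, ∃ (e : E2) (δ : ℝ), (e = rot ν ∨ e = - rot ν) ∧ 0 < δ ∧
      ∀ τ : ℝ, 0 < τ → τ < δ → p + τ • e ∈ K ∧ p - τ • e ∉ K

/-! ### C: Steiner inequalities and the isoperimetric inequality -/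

/-- Mayer-Vietoris inequality. -/
def S_C1 : Prop := ∀ A B : Set E2, IsClosed A → IsClosed B →
  bs A + bs B ≤ bs (A ∪ B) + bs (A ∩ B)

def S_C2 : Prop := ∀ (X Y : Type) [TopologicalSpace X] [TopologicalSpace Y] (f : X → Y),
  Continuous f → Function.Surjective f → b0 Y ≤ b0 X

def S_C3 : Prop := bs ∅ = 0 ∧ ∀ K : Set E2, IsConnected K → bs K = 1

def S_C4 : Prop := ∀ (X : Set ℝ) (ε : ℝ), IsCompact X → 0 ≤ ε →
  volume (X + Icc 0 ε) ≤ volume X + ENNReal.ofReal ε * ((b0 X : ℕ∞) : ℝ≥0∞)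

def S_C4m : Prop := ∀ (K : Set E2) (ν : E2), IsCompact K → ‖ν‖ = 1 →
  Measurable (fun c : ℝ => ((bs (K ∩ line ν c) : ℕ∞) : ℝ≥0∞))

def S_C5 : Prop := ∀ (K : Set E2) (ν : E2) (ε : ℝ), IsCompact K → ‖ν‖ = 1 → 0 ≤ ε →
  volume (K + seg (ε • rot ν)) ≤ volume K + ENNReal.ofReal ε * Ncomp K ν

def S_C6 : Prop := ∀ (K : Set E2) (ν : E2) (c δ : ℝ) (M : ℕ), IsCompact K → IsConnected K →
  0 < δ → K ⊆ strip ν c (c + M * δ) →
  ∑ i ∈ Finset.range M, bs (K ∩ strip ν (c + i * δ) (c + (i + 1) * δ)) ≤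
    1 + ∑ i ∈ Finset.Ico 1 M, bs (K ∩ line ν (c + i * δ))

def S_C7 : Prop := ∀ (K : Set E2) (ν h : E2) (c : ℝ), IsCompact K → 0 < ⟪h, ν⟫ →
  bs ((K + seg h) ∩ line ν c) ≤ bs (K ∩ strip ν (c - ⟪h, ν⟫) c)

def S_C8 : Prop := ∀ (K : Set E2) (ν h : E2), IsCompact K → IsConnected K → ‖ν‖ = 1 →
  Ncomp (K + seg h) ν ≤ Ncomp K ν + ENNReal.ofReal |⟪h, ν⟫|

def S_C9 : Prop := ∀ (K : Set E2) (n : ℕ) (φ ε : ℝ), IsCompact K → IsConnected K → 0 < n →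
  0 ≤ ε →
  volume (K + ∑ j ∈ Finset.range n, seg (ε • rot (dirv (φ + j * Real.pi / n)))) ≤
    volume K + ENNReal.ofReal ε *
        ∑ j ∈ Finset.range n, Ncomp K (dirv (φ + j * Real.pi / n)) +
      ENNReal.ofReal (ε ^ 2 * ∑ j ∈ Finset.range n, ∑ i ∈ Finset.range j,
        Real.sin (((j : ℝ) - i) * Real.pi / n))

def S_C10a : Prop := ∀ n : ℕ, 0 < n →
  ∑ j ∈ Finset.range n, ∑ i ∈ Finset.range j, Real.sin (((j : ℝ) - i) * Real.pi / n) =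
    (n : ℝ) / 2 * (Real.cos (Real.pi / (2 * n)) / Real.sin (Real.pi / (2 * n)))

def S_C10b : Prop := ∀ (n : ℕ) (θ : ℝ), 0 < n →
  Real.cos (Real.pi / (2 * n)) / Real.sin (Real.pi / (2 * n)) ≤
      ∑ j ∈ Finset.range n, |Real.cos (θ + j * Real.pi / n)| ∧
    ∑ j ∈ Finset.range n, |Real.cos (θ + j * Real.pi / n)| ≤
      1 / Real.sin (Real.pi / (2 * n))

def S_C10c : Prop := ∀ (n : ℕ) (s : ℝ), 2 ≤ n → 0 ≤ s → ∃ c : E2,
  closedBall c s ⊆ ∑ j ∈ Finset.range n,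
    seg ((2 * s * (Real.sin (Real.pi / (2 * n)) / Real.cos (Real.pi / (2 * n)))) •
      rot (dirv (0 + j * Real.pi / n)))

/-- On almost every line the number of components is at most half the number of boundary
points. -/
def S_C11 : Prop := ∀ (K : Set E2) (ν : E2), IsCompact K → LipClosed K → ‖ν‖ = 1 →
  ∀ᵐ c : ℝ, 2 * ((bs (K ∩ line ν c) : ℕ∞) : ℝ≥0∞) ≤ crs (frontier K) ν c

/-- Steiner inequality for compact connected sets with Lipschitz boundary. -/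
def S_C12 : Prop := ∀ (K : Set E2) (s : ℝ), IsCompact K → IsConnected K → LipClosed K → 0 ≤ s →
  volume (cthickening s K) ≤ volume K + ENNReal.ofReal (s * per K + Real.pi * s ^ 2)

/-- Inner Steiner inequality for filled domains. -/
def S_C13 : Prop := ∀ (G : Set E2) (s : ℝ), Admissible G → IsConnected Gᶜ → 0 ≤ s →
  volume {x | x ∈ G ∧ infDist x Gᶜ ≤ s} ≤ ENNReal.ofReal (s * per G)

/-- Brunn-Minkowski inequality with a disc. -/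
def S_BM : Prop := ∀ (K : Set E2) (s : ℝ), IsCompact K → K.Nonempty → 0 ≤ s →
  Real.sqrt (area K) + Real.sqrt Real.pi * s ≤ Real.sqrt (area (cthickening s K))

/-- One dimensional Brunn-Minkowski. -/
def S_BM1 : Prop := ∀ A B : Set ℝ, IsCompact A → IsCompact B → A.Nonempty → B.Nonempty →
  volume A + volume B ≤ volume (A + B)

/-- Prekopa-Leindler on the line. -/
def S_BM2 : Prop := ∀ (f g h : ℝ → ℝ) (l M : ℝ), 0 < l → l < 1 → Measurable f → Measurable g →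
  Measurable h → (∀ x, 0 ≤ f x ∧ f x ≤ M) → (∀ x, 0 ≤ g x ∧ g x ≤ M) → (∀ x, 0 ≤ h x ∧ h x ≤ M) →
  Bornology.IsBounded (Function.support f) → Bornology.IsBounded (Function.support g) →
  Bornology.IsBounded (Function.support h) →
  (∀ x y, 0 < f x → 0 < g y → (f x) ^ l * (g y) ^ (1 - l) ≤ h (l * x + (1 - l) * y)) →
  (∫ x, f x) ^ l * (∫ x, g x) ^ (1 - l) ≤ ∫ x, h x

/-- Multiplicative Brunn-Minkowski in the plane. -/
def S_BM3 : Prop := ∀ (A B : Set E2) (l : ℝ), 0 < l → l < 1 → IsCompact A → IsCompact B →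
  A.Nonempty → B.Nonempty →
  (area A) ^ l * (area B) ^ (1 - l) ≤ area (l • A + (1 - l) • B)

def S_Iso : Prop := ∀ K : Set E2, IsCompact K → IsConnected K → LipClosed K →
  4 * Real.pi * area K ≤ (per K) ^ 2

def S_IsoG : Prop := ∀ G : Set E2, Admissible G → IsConnected Gᶜ →
  4 * Real.pi * area G ≤ (per G) ^ 2

/-! ### D: holes -/

def S_D1 : Prop := ∀ (k : ℝ) (K : Set E2) (v : Profile), 1 ≤ k → IsCompact K → IsConnected K →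
  LipClosed K → AntitoneOn (v.g k) (Ici 0) →
  HoleLe k K (-(per K) * v.q k + 2 * Real.pi * v.m k)

def S_D2 : Prop := ∀ (k : ℝ) (K : Set E2), IsCompact K → LipClosed K → HoleLe k K (-(per K))

def S_D4 : Prop := ∀ r q m x : ℝ, 0 < r → 0 ≤ m → m ≤ r → 2 * m ≤ r * q → 0 ≤ x → x ≤ r →
  (x / r) ^ 2 * (r * q - m) ≤ max x (x * q - m)

def S_D5 : Prop := ∀ (k r : ℝ) (Ω : Set E2) (N : ℕ) (H : Fin N → Set E2) (v : Profile),
  1 ≤ k → Decomp Ω N H → 0 < r → Real.pi * r ^ 2 = ∑ i, area (H i) →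
  AntitoneOn (v.g k) (Ici 0) → v.m k ≤ r → 2 * v.m k ≤ r * v.q k →
  ∃ V : Fin N → ℝ, (∀ i, HoleLe k (H i) (V i)) ∧
    ∑ i, V i ≤ - 2 * Real.pi * (r * v.q k - v.m k)

/-! ### E: max reduction -/

def S_E1 : Prop := ∀ (k : ℝ) (Ω : Set E2) (N : ℕ) (H : Fin N → Set E2) (V₀ : ℝ)
  (V : Fin N → ℝ), 1 ≤ k → Admissible Ω → Decomp Ω N H → OuterLe k (fill Ω) V₀ →
  (∀ i, HoleLe k (H i) (V i)) →
  ∀ ε > 0, ∃ u : E2 → ℝ, (∃ K : ℝ≥0, LipschitzWith K u) ∧ (∀ x, 1 ≤ u x) ∧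
    Qk k Ω u ≤ k ^ 2 * area Ω + V₀ + ∑ i, V i + ε

/-- Combination: outer bound and holes. -/
def S_E2 : Prop := ∀ (k A r V₀ : ℝ) (Ω : Set E2) (v : Profile), 1 ≤ k → Admissible Ω → 0 < A →
  volume Ω = ENNReal.ofReal A → 0 < r → area (fill Ω) = A + Real.pi * r ^ 2 →
  AntitoneOn (v.g k) (Ici 0) → v.m k ≤ r → 2 * v.m k ≤ r * v.q k →
  OuterLe k (fill Ω) V₀ →
  k ^ 2 * A + V₀ - 2 * Real.pi * (r * v.q k - v.m k) ≤ 0 →
  lam (-1) Ω ≤ ((-(k ^ 2) : ℝ) : EReal)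

/-- Outer bound only (holes dropped). -/
def S_E3 : Prop := ∀ (k A V₀ : ℝ) (Ω : Set E2), 1 ≤ k → Admissible Ω → 0 < A →
  volume Ω = ENNReal.ofReal A → OuterLe k (fill Ω) V₀ → k ^ 2 * A + V₀ ≤ 0 →
  lam (-1) Ω ≤ ((-(k ^ 2) : ℝ) : EReal)

/-! ### F: annuli -/

/-- The ground state of the annulus in Riccati form. -/
structure GS (r R κ : ℝ) (χ : ℝ → ℝ) : Prop where
  r_pos : 0 < r
  lt : r < R
  one_lt : 1 < κ
  deriv : ∀ ξ ∈ Icc r R, HasDerivWithinAt χ (κ ^ 2 - χ ξ ^ 2 - χ ξ / ξ) (Icc r R) ξ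
  left : χ r = -1
  right : χ R = 1
  mono : StrictMonoOn χ (Icc r R)

/-- Riccati solutions exist on the whole interval, with continuous dependence of the end value. -/
def S_F1 : Prop := ∀ r R : ℝ, 0 < r → r < R → ∃ χ : ℝ → ℝ → ℝ,
  (∀ κ, 1 ≤ κ → χ κ r = -1 ∧ (∀ ξ ∈ Icc r R, -1 ≤ χ κ ξ ∧ χ κ ξ ≤ κ) ∧
    ∀ ξ ∈ Icc r R, HasDerivWithinAt (χ κ) (κ ^ 2 - χ κ ξ ^ 2 - χ κ ξ / ξ) (Icc r R) ξ) ∧
  ContinuousOn (fun κ => χ κ R) (Ici 1)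

def S_F2 : Prop := ∀ r R : ℝ, 0 < r → r < R → ∃ (κ : ℝ) (χ : ℝ → ℝ), GS r R κ χ

def S_F3 : Prop := ∀ (r R κ : ℝ) (χ : ℝ → ℝ), GS r R κ χ →
  lam (-1) (annulus r R) = ((-(κ ^ 2) : ℝ) : EReal)

end Pool.Agent.Robin
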