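import Pool.Agent.Work.MP_4b551e_an.Defs29
import Pool.Agent.Work.MP_4b551e_an.Stmts35

/-!
# MP_4b551e_an: statements of the outer part (helper29)
-/

open MeasureTheory Set Metric
open scoped ENNReal NNReal Pointwise RealInnerProductSpace

namespace Pool.Agent.Robin

/-! ### P: polygons -/

def T_P1 : Prop := ∀ (N : ℕ) (c : ℤ → ℝ) (i : ℤ), 8 ≤ N →
  vx N c i - vx N c (i - 1) = el N c i • tv N i ∧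
  ⟪vx N c i, nv N i⟫ = c i ∧ ⟪vx N c i, nv N (i + 1)⟫ = c (i + 1)

def T_P2 : Prop := ∀ (N : ℕ) (c : ℤ → ℝ), Supp N c → ∀ i, vx N c i ∈ poly N c

def T_P2b : Prop := ∀ (N : ℕ) (c : ℤ → ℝ), Supp N c →
  IsCompact (poly N c) ∧ Convex ℝ (poly N c) ∧ (0 : E2) ∈ poly N c

def T_P3 : Prop := ∀ (N : ℕ) (c : ℤ → ℝ), Supp N c →
  volume (poly N c ∪ (⋃ i ∈ Finset.range N, rect N c (i : ℤ)) ∪
    ⋃ i ∈ Finset.range N, sect N c (i : ℤ))ᶜ = 0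

def T_P4 : Prop := ∀ (N : ℕ) (c : ℤ → ℝ) (P : E2 → E2), Supp N c → IsProj (poly N c) P →
  (∀ i, ∀ x ∈ rect N c i, P x = x - (⟪x, nv N i⟫ - c i) • nv N i) ∧
  (∀ (i : ℤ) (d θ : ℝ), 0 ≤ d → i * dl N ≤ θ → θ ≤ (i + 1) * dl N →
    P (vx N c i + d • dirv θ) = vx N c i)

def T_P5 : Prop := ∀ (N : ℕ) (c : ℤ → ℝ), Supp N c →
  (∀ i j : ℕ, i < N → j < N → i ≠ j → Disjoint (rect N c i) (rect N c j) ∧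
    Disjoint (sect N c i) (sect N c j)) ∧
  (∀ i j : ℕ, i < N → j < N → Disjoint (rect N c i) (sect N c j)) ∧
  (∀ i : ℤ, Disjoint (poly N c) (rect N c i) ∧ Disjoint (poly N c) (sect N c i))

def T_P6 : Prop := ∀ (N : ℕ) (c : ℤ → ℝ), Supp N c →
  ENNReal.ofReal ((∑ i ∈ Finset.range N, c i * el N c i) / 2) ≤ volume (poly N c)

def T_P7 : Prop := ∀ (N : ℕ) (h : ℤ → ℝ) (ρ : ℝ), 8 ≤ N → (∀ i, h (i + N) = h i) → 0 < ρ →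
  (∀ i, ρ ≤ h i) → ∃ c : ℤ → ℝ, Supp N c ∧ (∀ i, c i ≤ h i) ∧ (∀ i, ρ ≤ c i) ∧
    ∀ i, 0 < el N c i → c i = h i

def T_P8 : Prop := ∀ (C : Set E2) (ρ₁ ρ₂ r₀ η : ℝ) (N₀ : ℕ), Convex ℝ C → IsCompact C →
  closedBall 0 ρ₁ ⊆ C → C ⊆ closedBall 0 ρ₂ → 0 < r₀ → r₀ < ρ₁ → 0 < η →
  ∃ (N : ℕ) (c : ℤ → ℝ), N₀ ≤ N ∧ Supp N c ∧ (∀ i, ρ₁ - r₀ ≤ c i ∧ c i ≤ ρ₂ - r₀) ∧
    (∀ x ∈ C, ∀ i, 0 < el N c i → ⟪x, nv N i⟫ ≤ c i + r₀) ∧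
    (∀ x ∈ frontier C, ∀ y ∈ poly N c, r₀ - η ≤ ‖x - y‖) ∧
    (∀ x, infDist x (poly N c) ≤ r₀ - η → x ∈ C)

def T_P9 : Prop := ∀ (N : ℕ) (c : ℤ → ℝ) (t : ℝ), Supp N c → 0 ≤ t →
  ENNReal.ofReal ((∑ i ∈ Finset.range N, c i * el N c i) / 2 +
    t * (∑ i ∈ Finset.range N, el N c i) + Real.pi * t ^ 2) ≤
    volume {x | infDist x (poly N c) ≤ t}

/-! ### Q: Fubini, polar coordinates, Eilenberg -/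

def T_Q1 : Prop := ∀ (v n : E2) (F : E2 → ℝ≥0∞), ‖n‖ = 1 → Measurable F →
  ∫⁻ x, F x = ∫⁻ t : ℝ, ∫⁻ s : ℝ, F (v + s • n + t • rot n)

def T_Q2 : Prop := ∀ (v : E2) (a b : ℝ) (F : E2 → ℝ≥0∞), a < b → b ≤ a + Real.pi →
  Measurable F →
  ∫⁻ x in cone v a b, F x =
    ∫⁻ θ in Ioo a b, ∫⁻ d in Ioi (0 : ℝ), F (v + d • dirv θ) * ENNReal.ofReal d

def T_Q3 : Prop := ∀ (v : E2) (a b : ℝ) (S : Set E2) (f : E2 → ℝ≥0∞), a < b →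
  b ≤ a + Real.pi / 2 → MeasurableSet S → Measurable f →
  ∫⁻ θ in Ioo a b, (⨆ (d : ℝ) (_ : 0 < d) (_ : v + d • dirv θ ∈ S),
      f (v + d • dirv θ) * ENNReal.ofReal d) ≤
    ∫⁻ x in S ∩ cone v a b, f x ∂(μH[1])

def T_Q4 : Prop := ∀ (v n : E2) (a b : ℝ) (S : Set E2) (f : E2 → ℝ≥0∞), ‖n‖ = 1 →
  MeasurableSet S → Measurable f →
  ∫⁻ t in Ioo a b, (⨆ (s : ℝ) (_ : v + s • n + t • rot n ∈ S), f (v + s • n + t • rot n)) ≤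
    ∫⁻ x in S ∩ {x | ⟪x - v, rot n⟫ ∈ Ioo a b}, f x ∂(μH[1])

/-! ### H: calculus with the support function -/

def T_H0 : Prop := ∀ (N : ℕ) (c : ℤ → ℝ) (lo hi r₀ : ℝ), Supp N c →
  (∀ i, lo ≤ c i ∧ c i ≤ hi) → 0 < lo → ∀ θ,
    lo + r₀ ≤ Hf N c 0 r₀ θ ∧ Hf N c 0 r₀ θ ≤ hi / Real.cos (Real.pi / N) + r₀

def T_H1 : Prop := ∀ (N : ℕ) (c : ℤ → ℝ) (a : E2) (r₀ : ℝ), Supp N c →
  Continuous (Hf N c a r₀) ∧ (∀ θ, Hf N c a r₀ (θ + 2 * Real.pi) = Hf N c a r₀ θ) ∧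
  (∀ θ, HasDerivWithinAt (Hf N c a r₀) (dHf N c a θ) (Ici θ) θ) ∧
  (∀ i : ℤ, Hf N c a r₀ (i * dl N) = c i - ⟪a, nv N i⟫ + r₀) ∧
  (∀ (i : ℤ) (θ : ℝ), i * dl N ≤ θ → θ < (i + 1) * dl N →
    Hf N c a r₀ θ = ⟪vx N c i - a, dirv θ⟫ + r₀ ∧
    dHf N c a θ = ⟪vx N c i - a, rot (dirv θ)⟫) ∧
  Measurable (dHf N c a) ∧ ∃ M, ∀ θ, |dHf N c a θ| ≤ M

def T_H2 : Prop := ∀ (N : ℕ) (c : ℤ → ℝ) (a : E2) (r₀ : ℝ) (F F' : ℝ → ℝ), Supp N c →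
  (∀ x, HasDerivAt F (F' x) x) → Continuous F' →
  (∑ i ∈ Finset.range N, el N c i * F (c i - ⟪a, nv N i⟫ + r₀)) +
      r₀ * ∫ θ in (0 : ℝ)..2 * Real.pi, F (Hf N c a r₀ θ) =
    (∫ θ in (0 : ℝ)..2 * Real.pi, F (Hf N c a r₀ θ) * Hf N c a r₀ θ) -
      ∫ θ in (0 : ℝ)..2 * Real.pi, F' (Hf N c a r₀ θ) * (dHf N c a θ) ^ 2

/-- Wirtinger inequality for the modes `≥ 2`. -/
def T_H3 : Prop := ∀ (f f' : ℝ → ℝ) (M : ℝ), ContinuousOn f (Icc 0 (2 * Real.pi)) →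
  f 0 = f (2 * Real.pi) →
  (∀ θ ∈ Ioo 0 (2 * Real.pi), HasDerivWithinAt f (f' θ) (Ioi θ) θ) → Measurable f' →
  (∀ θ, |f' θ| ≤ M) →
  ∫ θ in (0 : ℝ)..2 * Real.pi, f θ * Real.cos θ = 0 →
  ∫ θ in (0 : ℝ)..2 * Real.pi, f θ * Real.sin θ = 0 →
  (∫ θ in (0 : ℝ)..2 * Real.pi, (f θ) ^ 2) -
      (∫ θ in (0 : ℝ)..2 * Real.pi, f θ) ^ 2 / (2 * Real.pi) ≤
    (∫ θ in (0 : ℝ)..2 * Real.pi, (f' θ) ^ 2) / 4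

def T_H4 : Prop := ∀ (N : ℕ) (c : ℤ → ℝ) (r₀ lo hi : ℝ), Supp N c →
  (∀ θ, lo ≤ Hf N c 0 r₀ θ ∧ Hf N c 0 r₀ θ ≤ hi) →
  ∃ a : E2, ‖a‖ ≤ 2 * (hi - lo) ∧
    ∫ θ in (0 : ℝ)..2 * Real.pi, Hf N c a r₀ θ * Real.cos θ = 0 ∧
    ∫ θ in (0 : ℝ)..2 * Real.pi, Hf N c a r₀ θ * Real.sin θ = 0 ∧
    Rc N c a r₀ = Rc N c 0 r₀ ∧ ∀ θ, |Hf N c a r₀ θ - Rc N c a r₀| ≤ 4 * (hi - lo)

/-- Summary of the calculus: `A` is the area number of the rounded polygon. -/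
def T_H5 : Prop := ∀ (N : ℕ) (c : ℤ → ℝ) (a : E2) (r₀ R A T : ℝ), Supp N c → 0 < r₀ →
  R = Rc N c a r₀ → 0 < R →
  (∀ θ, |Hf N c a r₀ θ - R| ≤ R / 20) →
  ∫ θ in (0 : ℝ)..2 * Real.pi, Hf N c a r₀ θ * Real.cos θ = 0 →
  ∫ θ in (0 : ℝ)..2 * Real.pi, Hf N c a r₀ θ * Real.sin θ = 0 →
  A = (∑ i ∈ Finset.range N, c i * el N c i) / 2 + r₀ * (∑ i ∈ Finset.range N, el N c i) +
    Real.pi * r₀ ^ 2 →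
  T = ∫ θ in (0 : ℝ)..2 * Real.pi, (dHf N c a θ) ^ 2 →
  (∑ i ∈ Finset.range N, el N c i) + 2 * Real.pi * r₀ = 2 * Real.pi * R ∧
  (∑ i ∈ Finset.range N, el N c i * (c i - ⟪a, nv N i⟫ + r₀)) +
      r₀ * ∫ θ in (0 : ℝ)..2 * Real.pi, Hf N c a r₀ θ = 2 * A ∧
  (∑ i ∈ Finset.range N, el N c i * (c i - ⟪a, nv N i⟫ + r₀ - R) ^ 2) +
      r₀ * ∫ θ in (0 : ℝ)..2 * Real.pi, (Hf N c a r₀ θ - R) ^ 2 ≤ 2 / 5 * R * T ∧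
  3 / 2 * Real.pi * T ≤ 4 * Real.pi ^ 2 * R ^ 2 - 4 * Real.pi * A ∧ 0 ≤ T

/-! ### W: one dimensional inequalities -/

/-- Integrated radial bound in a rectangle. -/
def T_W1 : Prop := ∀ (k V : ℝ) (w : Profile), 19 / 20 ≤ V → V ≤ 21 / 20 → 1 ≤ k →
  ∫ s in (0 : ℝ)..w.σ, fr k w V s ≤ V * (∫ s in (0 : ℝ)..w.σ, w.g k s) +
    (V - 1) * (∫ s in (0 : ℝ)..w.σ, (w.dw s) ^ 2 / (w.w s) ^ 2) +
    20 / 19 * (V - 1) ^ 2 * (∫ s in (0 : ℝ)..w.σ, (w.dw s) ^ 2 / (w.w s) ^ 4)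

/-- Integrated radial bound in a sector. -/
def T_W2 : Prop := ∀ (k V V' r₀ : ℝ) (w : Profile), 19 / 20 ≤ V → V ≤ 21 / 20 → 1 ≤ k →
  w.σ ≤ r₀ / 10 →
  ∫ s in (0 : ℝ)..w.σ, fs k w r₀ V V' s * (r₀ - s) ≤
    V * (r₀ * (∫ s in (0 : ℝ)..w.σ, w.g k s) - w.m k) +
    (V - 1) * (∫ s in (0 : ℝ)..w.σ, (w.dw s) ^ 2 / (w.w s) ^ 2 * (r₀ - s)) +
    20 / 19 * (V - 1) ^ 2 * r₀ * (∫ s in (0 : ℝ)..w.σ, (w.dw s) ^ 2 / (w.w s) ^ 4) +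
    V' ^ 2 * (∫ s in (0 : ℝ)..w.σ, ((w.w s) ^ 2 - 1)) / (3 * r₀)

/-- Corners. -/
def T_W3 : Prop := ∀ k w0 V V' r₀ ρ : ℝ, 1 ≤ k → 1 ≤ w0 → |V - 1| ≤ 1 / 10 → |V'| ≤ 2 →
  10 ≤ r₀ → r₀ ≤ ρ → ρ * (k ^ 2 - 1) ≤ 4 / 5 →
  ∫ d in r₀..ρ, ((V ^ 2 * (2 * w0 ^ 2 * Real.exp (2 * (d - r₀))) ^ 2 +
      V' ^ 2 * (w0 ^ 2 * Real.exp (2 * (d - r₀)) - 1) ^ 2 / d ^ 2) /
        (4 * (1 + V * (w0 ^ 2 * Real.exp (2 * (d - r₀)) - 1))) +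
      k ^ 2 * (V * (w0 ^ 2 * Real.exp (2 * (d - r₀)) - 1))) * d ≤
    (1 + V * (w0 ^ 2 * Real.exp (2 * (ρ - r₀)) - 1)) * ρ - (1 + V * (w0 ^ 2 - 1)) * r₀

/-- The lower bound on columns. -/
def T_COL : Prop := ∀ (k κ σ : ℝ) (u : ℝ → ℝ), 1 ≤ k → k ≤ 21 / 20 → 0 ≤ κ → κ ≤ 1 / 50 →
  0 ≤ σ → κ * σ ≤ 1 / 2 → (∃ K : ℝ≥0, LipschitzWith K u) → (∀ t, 1 ≤ u t) →
  6 / 5 ≤ (k - 1) * (u 0) ^ 2 - 3 / 5 * k * Real.log ((u 0) ^ 2) →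
  κ * σ ≤ (∫ t in (0 : ℝ)..σ, ((deriv u t) ^ 2 + k ^ 2 * ((u t) ^ 2 - 1))) +
    (u σ) ^ 2 - (u 0) ^ 2

/-- Right hand side of the column inequality. -/
noncomputable def colR (k : ℝ) (v : ℝ → ℝ) (T : Set ℝ) : ℝ≥0∞ :=
  (∫⁻ s in T, ENNReal.ofReal ((deriv v s) ^ 2 + k ^ 2 * ((v s) ^ 2 - 1))) +
    ∑' s : (frontier T ∩ Ioi 0 : Set ℝ), ENNReal.ofReal ((v s) ^ 2)

def T_Col1 : Prop := ∀ (k κ S : ℝ) (v : ℝ → ℝ) (T : Set ℝ), 1 ≤ k → k ≤ 21 / 20 → 0 ≤ κ →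
  κ ≤ 1 / 50 → 0 ≤ S → κ * S ≤ 1 / 2 → IsOpen T → T ⊆ Ioc 0 S →
  (∃ K : ℝ≥0, LipschitzWith K v) → (∀ s, 1 ≤ v s) →
  ENNReal.ofReal κ * volume T ≤ colR k v T ∧
  ((∃ δ > 0, Ioo 0 δ ⊆ T) →
    6 / 5 ≤ (k - 1) * (v 0) ^ 2 - 3 / 5 * k * Real.log ((v 0) ^ 2) →
    ENNReal.ofReal ((v 0) ^ 2) + ENNReal.ofReal κ * volume T ≤ colR k v T)

/-- Monotonicity of the column condition. -/
def T_Theta : Prop := ∀ k U₁ U₂ : ℝ, 1 ≤ k → k ≤ 21 / 20 → 1 ≤ U₁ → U₁ ≤ U₂ →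
  6 / 5 ≤ (k - 1) * U₁ - 3 / 5 * k * Real.log U₁ →
  6 / 5 ≤ (k - 1) * U₂ - 3 / 5 * k * Real.log U₂

/-! ### U: the baseline function -/

def T_U0 : Prop := ∀ D : Set E2, IsCompact D → Convex ℝ D → D.Nonempty → ∃ P, IsProj D P

def T_U0b : Prop := ∀ (D : Set E2) (P : E2 → E2), IsProj D P →
  (∀ x y, ‖P x - P y‖ ≤ ‖x - y‖) ∧ (∀ x y, ‖(x - P x) - (y - P y)‖ ≤ ‖x - y‖) ∧
  (∀ x, infDist x D = ‖x - P x‖)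

def T_U1 : Prop := ∀ (w : Profile) (D : Set E2) (P : E2 → E2) (a : E2) (r₀ ρ d₁ : ℝ),
  IsCompact D → IsProj D P → 0 < r₀ → 0 < ρ → w.σ ≤ r₀ / 2 → r₀ ≤ d₁ →
  (∀ x, r₀ / 2 ≤ ‖x - P x‖ → 0 ≤ Vf P a r₀ ρ x) →
  (∃ K : ℝ≥0, LipschitzWith K (uf w P a r₀ ρ d₁)) ∧ ∀ x, 1 ≤ uf w P a r₀ ρ d₁ x

/-- Values of `V` in terms of the support function. -/
def T_U2 : Prop := ∀ (N : ℕ) (c : ℤ → ℝ) (P : E2 → E2) (a : E2) (r₀ ρ : ℝ), Supp N c →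
  IsProj (poly N c) P → 0 < r₀ → 0 < ρ →
  (∀ x, r₀ / 2 ≤ ‖x - P x‖ → ∃ θ, Vf P a r₀ ρ x = Hf N c a r₀ θ / ρ) ∧
  (∀ i, ∀ x ∈ rect N c i, r₀ / 2 ≤ ‖x - P x‖ →
    Vf P a r₀ ρ x = (c i - ⟪a, nv N i⟫ + r₀) / ρ) ∧
  (∀ (i : ℤ) (d θ : ℝ), r₀ / 2 ≤ d → i * dl N ≤ θ → θ < (i + 1) * dl N →
    Vf P a r₀ ρ (vx N c i + d • dirv θ) = Hf N c a r₀ θ / ρ)

/-- Gradient in a rectangle. -/
def T_U3 : Prop := ∀ (w : Profile) (N : ℕ) (c : ℤ → ℝ) (P : E2 → E2) (a : E2)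
  (r₀ ρ d₁ : ℝ) (i : ℤ) (x : E2), Supp N c → IsProj (poly N c) P → 0 < r₀ → 0 < ρ →
  w.σ < r₀ / 2 → r₀ < d₁ → 0 ≤ (c i - ⟪a, nv N i⟫ + r₀) / ρ → x ∈ rect N c i →
  ⟪x, nv N i⟫ - c i ≠ r₀ → ⟪x, nv N i⟫ - c i ≠ d₁ →
  ‖fderiv ℝ (uf w P a r₀ ρ d₁) x‖ ^ 2 ≤
    ((c i - ⟪a, nv N i⟫ + r₀) / ρ) ^ 2 * (dYp w r₀ d₁ (⟪x, nv N i⟫ - c i)) ^ 2 /
      (4 * (1 + (c i - ⟪a, nv N i⟫ + r₀) / ρ * Yp w r₀ d₁ (⟪x, nv N i⟫ - c i)))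

/-- Gradient in a sector. -/
def T_U4 : Prop := ∀ (w : Profile) (N : ℕ) (c : ℤ → ℝ) (P : E2 → E2) (a : E2)
  (r₀ ρ d₁ : ℝ) (i : ℤ) (d θ : ℝ), Supp N c → IsProj (poly N c) P → 0 < r₀ → 0 < ρ →
  w.σ < r₀ / 2 → r₀ < d₁ → 0 < Hf N c a r₀ θ → i * dl N < θ → θ < (i + 1) * dl N →
  0 < d → d ≠ r₀ → d ≠ d₁ →
  ‖fderiv ℝ (uf w P a r₀ ρ d₁) (vx N c i + d • dirv θ)‖ ^ 2 ≤
    ((Hf N c a r₀ θ / ρ) ^ 2 * (dYp w r₀ d₁ d) ^ 2 +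
      (dHf N c a θ / ρ) ^ 2 * (Yp w r₀ d₁ d) ^ 2 / d ^ 2) /
      (4 * (1 + Hf N c a r₀ θ / ρ * Yp w r₀ d₁ d))

/-- Common hypotheses for the estimates of the pieces. -/
structure Geom (k : ℝ) (w : Profile) (N : ℕ) (c : ℤ → ℝ) (P : E2 → E2) (a : E2)
    (r₀ ρ d₁ η : ℝ) (C : Set E2) : Prop where
  supp : Supp N c
  proj : IsProj (poly N c) P
  k1 : 1 ≤ k
  r₀10 : 10 ≤ r₀
  ρ_pos : 0 < ρ
  sg : w.σ ≤ r₀ / 10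
  lt : r₀ < d₁
  dk : d₁ * (k ^ 2 - 1) ≤ 4 / 5
  η0 : 0 ≤ η
  η1 : η ≤ r₀ / 10
  V1 : ∀ θ, |Hf N c a r₀ θ / ρ - 1| ≤ 1 / 20
  V2 : ∀ θ, |dHf N c a θ / ρ| ≤ 2
  Cc : IsCompact C
  Cv : Convex ℝ C
  sub : poly N c ⊆ interior C
  rc : ∀ x ∈ C, ∀ i, 0 < el N c i → ⟪x, nv N i⟫ ≤ c i + r₀
  fr : ∀ x ∈ frontier C, ∀ y ∈ poly N c, r₀ - η ≤ ‖x - y‖
  dist : ∀ x ∈ C, infDist x (poly N c) < d₁

/-- Volume integral over a rectangle. -/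
def T_U5 : Prop := ∀ (k : ℝ) (w : Profile) (N : ℕ) (c : ℤ → ℝ) (P : E2 → E2) (a : E2)
  (r₀ ρ d₁ η : ℝ) (C : Set E2) (i : ℤ), Geom k w N c P a r₀ ρ d₁ η C →
  ∫⁻ x in C ∩ rect N c i, ENNReal.ofReal (en k (uf w P a r₀ ρ d₁) x - k ^ 2) ≤
    ENNReal.ofReal (el N c i *
      ∫ s in (0 : ℝ)..w.σ, fr k w ((c i - ⟪a, nv N i⟫ + r₀) / ρ) s)

/-- Boundary integral over a rectangle. -/
def T_U6 : Prop := ∀ (k : ℝ) (w : Profile) (N : ℕ) (c : ℤ → ℝ) (P : E2 → E2) (a : E2)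
  (r₀ ρ d₁ η : ℝ) (C : Set E2) (i : ℤ), Geom k w N c P a r₀ ρ d₁ η C →
  ENNReal.ofReal (el N c i *
      (1 + (c i - ⟪a, nv N i⟫ + r₀) / ρ * ((w.w η) ^ 2 - 1))) ≤
    ∫⁻ x in frontier C ∩ rect N c i, ENNReal.ofReal ((uf w P a r₀ ρ d₁ x) ^ 2) ∂(μH[1])

/-- Sector. -/
def T_U7 : Prop := ∀ (k : ℝ) (w : Profile) (N : ℕ) (c : ℤ → ℝ) (P : E2 → E2) (a : E2)
  (r₀ ρ d₁ η : ℝ) (C : Set E2) (i : ℤ), Geom k w N c P a r₀ ρ d₁ η C →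
  (∫⁻ x in C ∩ sect N c i, ENNReal.ofReal (en k (uf w P a r₀ ρ d₁) x - k ^ 2)) +
      ENNReal.ofReal (∫ θ in (i * dl N)..((i + 1) * dl N),
        (1 + Hf N c a r₀ θ / ρ * ((w.w η) ^ 2 - 1)) * (r₀ - η)) ≤
    (∫⁻ x in frontier C ∩ sect N c i,
        ENNReal.ofReal ((uf w P a r₀ ρ d₁ x) ^ 2) ∂(μH[1])) +
      ENNReal.ofReal (∫ θ in (i * dl N)..((i + 1) * dl N), ∫ s in (0 : ℝ)..w.σ,
        fs k w r₀ (Hf N c a r₀ θ / ρ) (dHf N c a θ / ρ) s * (r₀ - s))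

/-! ### B: baseline -/

/-- The final inequality: `J` are the integrals of the profile, `y = w(0)^2 - 1`. -/
def T_B1 : Prop := ∀ (Jg J₁ J₂ I₂ m m₁ q y r₀ R A T ρ₁ S1 : ℝ), q ≤ -2 → 0 ≤ J₁ → 0 ≤ J₂ →
  J₂ ≤ 1 → 0 ≤ I₂ → I₂ ≤ ρ₁ ^ 2 / 1000 → r₀ = ρ₁ / 10 → 200 ≤ ρ₁ → ρ₁ ≤ R → 0 ≤ T →
  q = y + 1 - Jg → 3 / 2 * Real.pi * T ≤ 4 * Real.pi ^ 2 * R ^ 2 - 4 * Real.pi * A → 0 ≤ A →
  81 / 100 * Real.pi * R ^ 2 ≤ A →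
  0 ≤ S1 → S1 ≤ 2 / 5 * R * T →
  2 * A / R * Jg - 2 * Real.pi * m + (2 * A / R - 2 * Real.pi * R) * J₁ +
      20 / 19 * (S1 / R ^ 2) * J₂ + T / R ^ 2 * (I₂ / (3 * r₀)) -
      (2 * Real.pi * R + 2 * A / R * y) ≤
    2 * Real.pi * (-q) * Real.sqrt (A / Real.pi) - 2 * Real.pi * m

/-- Baseline for convex bodies centred at the origin. -/
def T_B2 : Prop := ∀ (k : ℝ) (w : Profile) (C : Set E2) (ρ₁ ρ₂ : ℝ), BaseHyp k w ρ₁ →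
  Convex ℝ C → IsCompact C → closedBall 0 ρ₁ ⊆ C → C ⊆ closedBall 0 ρ₂ →
  ρ₂ ≤ 101 / 100 * ρ₁ →
  BaseLe k w C (Real.sqrt (area C / Real.pi)) (9 / 10 * (w.w 0) ^ 2)

/-- Baseline for convex bodies. -/
def T_B3 : Prop := ∀ (k : ℝ) (w : Profile) (C : Set E2) (o : E2) (ρ₁ ρ₂ : ℝ),
  BaseHyp k w ρ₁ → Convex ℝ C → IsCompact C → closedBall o ρ₁ ⊆ C → C ⊆ closedBall o ρ₂ →
  ρ₂ ≤ 101 / 100 * ρ₁ →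
  BaseLe k w C (Real.sqrt (area C / Real.pi)) (9 / 10 * (w.w 0) ^ 2)

/-! ### K: pockets -/

def T_CL : Prop := CrossLem

/-- Charts: near a boundary point the exterior is connected. -/
def T_K1 : Prop := ∀ G : Set E2, Admissible G → ∀ p ∈ frontier G, ∀ ε > 0, ∃ U : Set E2,
  IsOpen U ∧ p ∈ U ∧ U ⊆ ball p ε ∧ IsConnected (U \ closure G) ∧
  frontier G ∩ U ⊆ closure (U \ closure G)

/-- Face property: a mouth point is strictly between two points of the closure on the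
supporting line. -/
def T_K0 : Prop := ∀ (G : Set E2) (z ν : E2), Bornology.IsBounded G → z ∉ closure G →
  Sup G z ν → ∃ a ∈ closure G, ∃ b ∈ closure G, z ∈ openSegment ℝ a b ∧
    ⟪a - z, ν⟫ = 0 ∧ ⟪b - z, ν⟫ = 0 ∧ a ≠ b

def T_K2 : Prop := ∀ G Q : Set E2, IsOpen G → G.Nonempty → Bornology.IsBounded G → Pocket G Q →
  IsOpen Q ∧ Q ⊆ ext G ∧ IsConnected Q ∧ IsCompact (hull G) ∧ Convex ℝ (hull G) ∧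
  (interior (hull G)).Nonempty ∧ G ⊆ interior (hull G) ∧
  frontier Q ⊆ frontier G ∪ (frontier (hull G) \ closure G) ∧
  frontier Q ∩ interior (hull G) ⊆ frontier G

/-- Different pockets have disjoint boundaries inside the hull. -/
def T_K3 : Prop := ∀ G Q Q' : Set E2, Admissible G → Pocket G Q → Pocket G Q' → Q ≠ Q' →
  Disjoint Q Q' ∧ Disjoint (frontier Q ∩ interior (hull G)) (frontier Q' ∩ interior (hull G))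

/-- Mouth points belong to pockets; near a mouth point the interior of the hull is in the
pocket. -/
def T_K4 : Prop := ∀ G : Set E2, IsOpen G → G.Nonempty → Bornology.IsBounded G →
  (∀ z ∈ frontier (hull G) \ closure G, ∃ Q, Pocket G Q ∧ z ∈ mouth G Q) ∧
  (∀ Q, Pocket G Q → ∀ z ∈ mouth G Q, ∃ ε > 0, ball z ε ∩ interior (hull G) ⊆ Q ∧
    Disjoint (ball z ε) (closure G)) ∧
  {Q | Pocket G Q}.Countable ∧ (⋃₀ {Q | Pocket G Q}) = ext G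

def T_K5 : Prop := ∀ G Q : Set E2, Admissible G → IsConnected Gᶜ → Pocket G Q →
  (mouth G Q).Nonempty

/-- Vertical segments below a mouth point start in the interior of the hull. -/
def T_K6 : Prop := ∀ (G : Set E2) (z ν : E2), IsOpen G → G.Nonempty → Bornology.IsBounded G →
  z ∉ closure G → Sup G z ν → ∃ δ > 0, ∀ s ∈ Ioo (0 : ℝ) δ, z - s • ν ∈ interior (hull G)

/-- All mouth points of a pocket are on one supporting line. -/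
def T_K7 : Prop := CrossLem → ∀ (G Q : Set E2) (x₁ x₂ ν : E2), IsOpen G → IsConnected G →
  Bornology.IsBounded G → Pocket G Q → x₁ ∈ mouth G Q → x₂ ∈ mouth G Q → Sup G x₁ ν →
  ⟪x₂ - x₁, ν⟫ = 0

/-- Boundary points of a pocket below its mouth line are in the interior of the hull. -/
def T_K8 : Prop := ∀ (G Q : Set E2) (x₁ ν : E2), Admissible G → Pocket G Q → Sup G x₁ ν →
  (∀ x ∈ mouth G Q, ⟪x - x₁, ν⟫ = 0) →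
  ∀ z ∈ frontier Q, ⟪z - x₁, ν⟫ < 0 → z ∈ interior (hull G) ∩ frontier G

/-- Slices: for almost every line the restriction of `u` has a derivative bounded by the
gradient. -/
def T_K9 : Prop := ∀ (v n : E2) (u : E2 → ℝ) (K : ℝ≥0), ‖n‖ = 1 → LipschitzWith K u →
  ∀ᵐ t : ℝ, ∀ᵐ s : ℝ, (deriv (fun σ : ℝ => u (v + σ • n + t • rot n)) s) ^ 2 ≤
    ‖fderiv ℝ u (v + s • n + t • rot n)‖ ^ 2

/-- The mouth integral. -/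
def T_K10 : Prop := ∀ (v n : E2) (S : Set E2) (f : E2 → ℝ≥0∞), ‖n‖ = 1 → MeasurableSet S →
  Measurable f → (∀ x ∈ S, ⟪x - v, n⟫ = 0) →
  ∫⁻ x in S, f x ∂(μH[1]) = ∫⁻ t : ℝ, S.indicator f (v + t • rot n)

/-- The pocket inequality. -/
def T_K11 : Prop := ∀ (k κ s U₀ : ℝ) (G Q : Set E2) (u : E2 → ℝ) (x₁ ν : E2), Admissible G →
  Pocket G Q → 1 ≤ k → k ≤ 21 / 20 → 0 ≤ κ → κ ≤ 1 / 50 → 0 ≤ s → κ * s ≤ 1 / 2 → 1 ≤ U₀ →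
  6 / 5 ≤ (k - 1) * U₀ - 3 / 5 * k * Real.log U₀ →
  (∃ K : ℝ≥0, LipschitzWith K u) → (∀ x, 1 ≤ u x) → (∀ x ∈ mouth G Q, U₀ ≤ (u x) ^ 2) →
  Sup G x₁ ν → (∀ x ∈ mouth G Q, ⟪x - x₁, ν⟫ = 0) → (∀ z ∈ Q, ⟪x₁ - z, ν⟫ ≤ s) →
  (∫⁻ x in mouth G Q, ENNReal.ofReal ((u x) ^ 2) ∂(μH[1])) + ENNReal.ofReal κ * volume Q ≤
    (∫⁻ x in Q, ENNReal.ofReal (en k u x - k ^ 2)) +
      ∫⁻ x in frontier Q ∩ interior (hull G), ENNReal.ofReal ((u x) ^ 2) ∂(μH[1])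

/-- Summation over the pockets. -/
def T_K12 : Prop := ∀ (k κ : ℝ) (G : Set E2) (u : E2 → ℝ) (M B : ℝ≥0∞), Admissible G →
  (∃ K : ℝ≥0, LipschitzWith K u) → (∀ x, 1 ≤ u x) → 1 ≤ k →
  (∀ Q, Pocket G Q →
    (∫⁻ x in mouth G Q, ENNReal.ofReal ((u x) ^ 2) ∂(μH[1])) + ENNReal.ofReal κ * volume Q ≤
      (∫⁻ x in Q, ENNReal.ofReal (en k u x - k ^ 2)) +
        ∫⁻ x in frontier Q ∩ interior (hull G), ENNReal.ofReal ((u x) ^ 2) ∂(μH[1])) →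
  (∫⁻ x in hull G, ENNReal.ofReal (en k u x - k ^ 2)) + M ≤
    (∫⁻ x in frontier (hull G), ENNReal.ofReal ((u x) ^ 2) ∂(μH[1])) + B →
  (∫⁻ x in G, ENNReal.ofReal (en k u x - k ^ 2)) + ENNReal.ofReal κ * volume (ext G) + M ≤
    (∫⁻ x in frontier G, ENNReal.ofReal ((u x) ^ 2) ∂(μH[1])) + B

/-- Areas. -/
def T_K13 : Prop := ∀ G : Set E2, Admissible G →
  volume (frontier G) = 0 ∧ μH[1] (frontier G) < ⊤ ∧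
  volume (hull G) = volume G + volume (ext G) ∧ volume (hull G) < ⊤

/-- Inner ball. -/
def T_K14 : Prop := ∀ (G : Set E2) (o : E2) (ρ₁ s : ℝ), Admissible G →
  closedBall o ρ₁ ⊆ hull G → 0 ≤ s → s < ρ₁ → Depth G s →
  (∀ Q, Pocket G Q → (mouth G Q).Nonempty) →
  Real.pi * (ρ₁ - s) ^ 2 ≤ area G

/-! ### O: outer theorem -/

/-- From the extended inequality to `OuterLe`. -/
def T_O1 : Prop := ∀ (k : ℝ) (G : Set E2) (V : ℝ), Admissible G → 1 ≤ k →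
  μH[1] (frontier G) < ⊤ →
  (∀ ε > 0, ∃ u : E2 → ℝ, (∃ K : ℝ≥0, LipschitzWith K u) ∧ (∀ x, 1 ≤ u x) ∧
    ∃ M B : ℝ, 0 ≤ M ∧ 0 ≤ B ∧ B - M ≤ V + ε ∧
    (∫⁻ x in G, ENNReal.ofReal (en k u x - k ^ 2)) + ENNReal.ofReal M ≤
      (∫⁻ x in frontier G, ENNReal.ofReal ((u x) ^ 2) ∂(μH[1])) + ENNReal.ofReal B) →
  OuterLe k G V

/-- THEOREM O. -/
def T_O : Prop := ∀ (k : ℝ) (w : Profile) (G : Set E2) (o : E2) (ρ₁ ρ₂ s : ℝ), Admissible G →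
  IsConnected Gᶜ → BaseHyp k w ρ₁ → closedBall o ρ₁ ⊆ hull G → hull G ⊆ closedBall o ρ₂ →
  ρ₂ ≤ 101 / 100 * ρ₁ → -w.q k ≤ ρ₁ / 100 → 0 ≤ s → -w.q k * s ≤ ρ₁ / 4 → Depth G s →
  6 / 5 ≤ (k - 1) * (9 / 10 * (w.w 0) ^ 2) -
    3 / 5 * k * Real.log (9 / 10 * (w.w 0) ^ 2) →
  OuterLe k G (-2 * Real.pi * (w.q k * Real.sqrt (area G / Real.pi) + w.m k))

end Pool.Agent.Robin
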