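import Pool.Agent.Work.MP_4b551e_an.Stmt
import Pool.Agent.Work.MP_4b551e_an.Bd.B01
import Pool.Agent.Work.MP_4b551e_an.Bd.B07

/-!
# The infimum over `H¹` equals the infimum over Lipschitz functions (helper27)
-/

open MeasureTheory Set Filter
open scoped ENNReal NNReal ContDiff RealInnerProductSpace Topology

namespace Pool.Agent.RobinH

theorem admissible_iff {Ω : Set Plane} : Admissible Ω ↔ Robin.Admissible Ω :=
  ⟨fun h => ⟨h.1, h.2, h.3, h.4⟩, fun h => ⟨h.1, h.2, h.3, h.4⟩⟩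

theorem annulus_eq (r R : ℝ) : annulus r R = Robin.annulus r R := rfl

theorem compact_closure {Ω : Set Plane} (hΩ : Admissible Ω) : IsCompact (closure Ω) :=
  hΩ.isBounded.isCompact_closure

theorem compact_frontier {Ω : Set Plane} (hΩ : Admissible Ω) : IsCompact (frontier Ω) :=
  (compact_closure hΩ).of_isClosed_subset isClosed_frontier frontier_subset_closure

theorem arc_lt_top {Ω : Set Plane} (hΩ : Admissible Ω) :
    (Measure.hausdorffMeasure 1 : Measure Plane) (frontier Ω) < ⊤ := by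
  have h := (Robin.prf_B2 Robin.prf_B1f) Ωᶜ (Robin.prf_B1 Ω (admissible_iff.1 hΩ))
    (by rw [frontier_compl]; exact compact_frontier hΩ)
  rw [frontier_compl] at h
  exact h.1

theorem grad_norm (v : Plane → ℝ) (x : Plane) : ‖gradient v x‖ = ‖fderiv ℝ v x‖ :=
  LinearIsometryEquiv.norm_map _ _

theorem finiteLeb {Ω : Set Plane} (hΩ : Admissible Ω) : IsFiniteMeasure (volume.restrict Ω) :=
  ⟨by rw [Measure.restrict_apply_univ]; exact hΩ.isBounded.measure_lt_top⟩

theorem finiteArc {Ω : Set Plane} (hΩ : Admissible Ω) : IsFiniteMeasure (arcLength Ω) :=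
  ⟨by rw [arcLength, Measure.restrict_apply_univ]; exact arc_lt_top hΩ⟩

theorem memLp_leb {Ω : Set Plane} (hΩ : Admissible Ω) {v : Plane → ℝ} {K : ℝ≥0}
    (hv : LipschitzWith K v) : MemLp v 2 (volume.restrict Ω) := by
  have := finiteLeb hΩ
  obtain ⟨C, hC⟩ := (compact_closure hΩ).exists_bound_of_continuousOn hv.continuous.continuousOn
  exact MemLp.of_bound hv.continuous.aestronglyMeasurable C
    (ae_restrict_of_forall_mem hΩ.isOpen.measurableSet (fun x hx => hC x (subset_closure hx)))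

theorem memLp_arc {Ω : Set Plane} (hΩ : Admissible Ω) {v : Plane → ℝ} {K : ℝ≥0}
    (hv : LipschitzWith K v) : MemLp v 2 (arcLength Ω) := by
  have := finiteArc hΩ
  obtain ⟨C, hC⟩ := (compact_closure hΩ).exists_bound_of_continuousOn hv.continuous.continuousOn
  exact MemLp.of_bound hv.continuous.aestronglyMeasurable C
    (ae_restrict_of_forall_mem isClosed_frontier.measurableSet
      (fun x hx => hC x (frontier_subset_closure hx)))

theorem gradient_measurable (v : Plane → ℝ) : Measurable (gradient v) :=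
  (InnerProductSpace.toDual ℝ Plane).symm.continuous.measurable.comp (measurable_fderiv ℝ v)

theorem memLp_grad {Ω : Set Plane} (hΩ : Admissible Ω) {v : Plane → ℝ} {K : ℝ≥0}
    (hv : LipschitzWith K v) : MemLp (gradient v) 2 (volume.restrict Ω) := by
  have := finiteLeb hΩ
  refine MemLp.of_bound (gradient_measurable v).aestronglyMeasurable K
    (Eventually.of_forall fun x => ?_)
  rw [grad_norm]
  exact norm_fderiv_le_of_lipschitz ℝ hv

theorem weak_lip {Ω : Set Plane} {v : Plane → ℝ} {K : ℝ≥0}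
    (hv : LipschitzWith K v) : WeakGradient Ω v (gradient v) := by
  intro φ hφ hcs hsup e
  have hφ0 : ∀ x, x ∉ Ω → φ x = 0 := fun x hx =>
    image_eq_zero_of_notMem_tsupport (fun h => hx (hsup h))
  have hdφ0 : ∀ x, x ∉ Ω → fderiv ℝ φ x = 0 := fun x hx =>
    fderiv_of_notMem_tsupport (𝕜 := ℝ) (fun h => hx (hsup h))
  rw [setIntegral_eq_integral_of_forall_compl_eq_zero (fun x hx => by rw [hdφ0 x hx]; simp),
    setIntegral_eq_integral_of_forall_compl_eq_zero (fun x hx => by rw [hφ0 x hx]; simp)]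
  obtain ⟨D, hD⟩ : ∃ D, LipschitzWith D φ :=
    ContDiff.lipschitzWith_of_hasCompactSupport hcs hφ (by simp)
  have h := hv.integral_lineDeriv_mul_eq (μ := volume) hD hcs e
  have hae : ∀ᵐ x : Plane, lineDeriv ℝ v x e * φ x = ⟪gradient v x, e⟫ * φ x := by
    filter_upwards [hv.ae_differentiableAt] with x hx
    rw [hx.lineDeriv_eq_fderiv, gradient, InnerProductSpace.toDual_symm_apply]
  rw [← integral_congr_ae hae, h, ← integral_neg]
  congr 1; ext x
  rw [((hφ.differentiable (by simp)).differentiableAt).lineDeriv_eq_fderiv, map_neg]; ring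

/-- A Lipschitz function belongs to `H¹(Ω)` and is its own trace. -/
theorem h1_lip {Ω : Set Plane} (hΩ : Admissible Ω) {v : Plane → ℝ} {K : ℝ≥0}
    (hv : LipschitzWith K v) : H1 Ω v (gradient v) :=
  ⟨memLp_leb hΩ hv, memLp_grad hΩ hv, weak_lip hv⟩

theorem trace_lip {Ω : Set Plane} (hΩ : Admissible Ω) {v : Plane → ℝ} {K : ℝ≥0}
    (hv : LipschitzWith K v) : IsTrace Ω v (gradient v) v := by
  refine ⟨memLp_arc hΩ hv, fun _ => v, fun _ => ⟨K, hv⟩, ?_, ?_, ?_⟩ <;> simp

section conv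

variable {X E : Type} [MeasurableSpace X] [NormedAddCommGroup E] {μ : Measure X}

theorem int_sq {f : X → E} (hf : MemLp f 2 μ) : ∫ x, ‖f x‖ ^ 2 ∂μ = lpNorm f 2 μ ^ 2 := by
  rw [lpNorm_eq_integral_norm_rpow_toReal two_ne_zero ENNReal.ofNat_ne_top hf.1]
  have h2 : (2 : ℝ≥0∞).toReal = 2 := by simp
  have h0 : 0 ≤ ∫ x, ‖f x‖ ^ 2 ∂μ := integral_nonneg fun x => by positivity
  simp only [h2, Real.rpow_two]
  rw [← Real.rpow_two, ← Real.rpow_mul h0]
  norm_num

theorem tendsto_sq {f : ℕ → X → E} {g : X → E} (hf : ∀ n, MemLp (f n) 2 μ) (hg : MemLp g 2 μ)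
    (h : Tendsto (fun n => eLpNorm (fun x => f n x - g x) 2 μ) atTop (𝓝 0)) :
    Tendsto (fun n => ∫ x, ‖f n x‖ ^ 2 ∂μ) atTop (𝓝 (∫ x, ‖g x‖ ^ 2 ∂μ)) := by
  have h1 : Tendsto (fun n => lpNorm (f n - g) 2 μ) atTop (𝓝 0) := by
    have h2 := (ENNReal.tendsto_toReal ENNReal.zero_ne_top).comp h
    simp only [ENNReal.toReal_zero] at h2
    refine h2.congr fun n => ?_
    exact toReal_eLpNorm ((hf n).sub hg).1
  have h2 : Tendsto (fun n => lpNorm (f n) 2 μ) atTop (𝓝 (lpNorm g 2 μ)) := by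
    rw [tendsto_iff_dist_tendsto_zero]
    refine squeeze_zero (fun n => dist_nonneg) (fun n => ?_) h1
    rw [Real.dist_eq, abs_le]
    have e1 := lpNorm_le_lpNorm_add_lpNorm_sub' (f := f n) hg (by norm_num)
    have e2 := lpNorm_le_lpNorm_add_lpNorm_sub (f := g) (hf n) (by norm_num)
    constructor <;> linarith
  have h3 := h2.pow 2
  rw [← int_sq hg] at h3
  exact h3.congr fun n => (int_sq (hf n)).symm

end conv

theorem robin_le {Ω : Set Plane} (hΩ : Admissible Ω) (α : ℝ) :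
    robinEigenvalue α Ω ≤ Robin.lam α Ω := by
  unfold robinEigenvalue Robin.lam
  refine le_iInf fun v => le_iInf fun hK => le_iInf fun hpos => ?_
  obtain ⟨K, hK⟩ := hK
  refine iInf_le_of_le v <| iInf_le_of_le (gradient v) <| iInf_le_of_le v <|
    iInf_le_of_le (h1_lip hΩ hK) <| iInf_le_of_le (trace_lip hΩ hK) <|
    iInf_le_of_le hpos (le_of_eq ?_)
  simp only [grad_norm, Robin.rayleigh, arcLength]

theorem le_robin {Ω : Set Plane} (hΩ : Admissible Ω) (α : ℝ) :
    Robin.lam α Ω ≤ robinEigenvalue α Ω := by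
  unfold robinEigenvalue
  refine le_iInf fun u => le_iInf fun g => le_iInf fun t => le_iInf fun hH =>
    le_iInf fun hT => le_iInf fun hpos => ?_
  obtain ⟨v, hv, hu, hg, ht⟩ := hT.lim
  choose K hK using hv
  have c1 := tendsto_sq (fun n => memLp_leb hΩ (hK n)) hH.mem hu
  have c2 := tendsto_sq (fun n => memLp_grad hΩ (hK n)) hH.grad_mem hg
  have c3 := tendsto_sq (fun n => memLp_arc hΩ (hK n)) hT.mem ht
  simp only [Real.norm_eq_abs, sq_abs] at c1 c3
  have c4 : Tendsto (fun n => (((∫ x in Ω, ‖gradient (v n) x‖ ^ 2) +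
      α * ∫ x, v n x ^ 2 ∂(arcLength Ω)) / ∫ x in Ω, v n x ^ 2 : ℝ)) atTop
      (𝓝 (((∫ x in Ω, ‖g x‖ ^ 2) + α * ∫ x, t x ^ 2 ∂(arcLength Ω)) / ∫ x in Ω, u x ^ 2)) :=
    (c2.add (c3.const_mul α)).div c1 hpos.ne'
  have c5 := (continuous_coe_real_ereal.tendsto _).comp c4
  refine ge_of_tendsto c5 ?_
  filter_upwards [c1.eventually (lt_mem_nhds hpos)] with n hn
  refine iInf_le_of_le (v n) <| iInf_le_of_le ⟨K n, hK n⟩ <| iInf_le_of_le hn (le_of_eq ?_)
  simp only [grad_norm, Robin.rayleigh, arcLength, Function.comp]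

/-- The infimum over `H¹(Ω)` equals the infimum over Lipschitz functions. -/
theorem robin_eq {Ω : Set Plane} (hΩ : Admissible Ω) (α : ℝ) :
    robinEigenvalue α Ω = Robin.lam α Ω :=
  le_antisymm (robin_le hΩ α) (le_robin hΩ α)

/-- From the Lipschitz form of the main theorem to the `H¹` form. -/
theorem main_of_main (h : Robin.MainTheorem) :
    ∀ A : ℝ, 0 < A → ∃ α₀ : ℝ, α₀ < 0 ∧ ∀ α : ℝ, α < α₀ → ∃ r R : ℝ, 0 < r ∧ r < R ∧
      Admissible (annulus r R) ∧ volume (annulus r R) = ENNReal.ofReal A ∧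
      ∀ Ω : Set Plane, Admissible Ω → volume Ω = ENNReal.ofReal A →
        robinEigenvalue α Ω ≤ robinEigenvalue α (annulus r R) := by
  intro A hA
  obtain ⟨α₀, h0, h1⟩ := h A hA
  refine ⟨α₀, h0, fun α hα => ?_⟩
  obtain ⟨r, R, hr, hR, hadm, hvol, hmax⟩ := h1 α hα
  have hann : Admissible (annulus r R) := admissible_iff.2 hadm
  refine ⟨r, R, hr, hR, hann, hvol, fun Ω hΩ hA' => ?_⟩
  rw [robin_eq hΩ, robin_eq hann]
  exact hmax Ω (admissible_iff.1 hΩ) hA'

end Pool.Agent.RobinH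

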