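import Mathlib

/-!
# MP_4b551e_an: annuli and the first Robin eigenvalue for large negative parameter

Definitions shared by all parts (captains: helper35, helper29, helper27).
-/

open MeasureTheory Set Metric
open scoped ENNReal NNReal

namespace Pool.Agent.Robin

/-- The Euclidean plane. -/
abbrev E2 := EuclideanSpace ℝ (Fin 2)

/-- Lipschitz boundary: near every boundary point, in suitable Cartesian coordinates
(`L` is a linear isometry), the set is the strict subgraph of a Lipschitz function inside an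
open box centred at the point. -/
def LipBdry (Ω : Set E2) : Prop :=
  ∀ p ∈ frontier Ω, ∃ (L : E2 ≃ₗᵢ[ℝ] E2) (f : ℝ → ℝ) (K : ℝ≥0) (a b : ℝ),
    0 < a ∧ 0 < b ∧ LipschitzWith K f ∧
    ∀ x : E2, |(L (x - p)) 0| < a → |(L (x - p)) 1| < b →
      (x ∈ Ω ↔ (L (x - p)) 1 < f ((L (x - p)) 0))

/-- Admissible sets: bounded connected open sets with Lipschitz boundary. -/
structure Admissible (Ω : Set E2) : Prop where
  isOpen : IsOpen Ω
  isConnected : IsConnected Ω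
  isBounded : Bornology.IsBounded Ω
  lip : LipBdry Ω

/-- The Rayleigh quotient of the Robin problem; the boundary integral is with respect to
arc length, i.e. one dimensional Hausdorff measure. -/
noncomputable def rayleigh (α : ℝ) (Ω : Set E2) (u : E2 → ℝ) : ℝ :=
  ((∫ x in Ω, ‖fderiv ℝ u x‖ ^ 2) + α * ∫ x in frontier Ω, (u x) ^ 2 ∂(μH[1])) /
    ∫ x in Ω, (u x) ^ 2

/-- The first Robin eigenvalue: infimum of the Rayleigh quotient over Lipschitz functions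
which do not vanish almost everywhere on the set. -/
noncomputable def lam (α : ℝ) (Ω : Set E2) : EReal :=
  ⨅ (u : E2 → ℝ) (_ : ∃ K : ℝ≥0, LipschitzWith K u) (_ : 0 < ∫ x in Ω, (u x) ^ 2),
    ((rayleigh α Ω u : ℝ) : EReal)

/-- The open annulus with centre `0` and radii `r < R`. -/
def annulus (r R : ℝ) : Set E2 := {x | r < ‖x‖ ∧ ‖x‖ < R}

/-- Energy density `|∇u|² + k² u²`. -/
noncomputable def en (k : ℝ) (u : E2 → ℝ) (x : E2) : ℝ := ‖fderiv ℝ u x‖ ^ 2 + k ^ 2 * (u x) ^ 2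

/-- The quadratic form (for `α = -1`, shifted by `k²`). -/
noncomputable def Qk (k : ℝ) (Ω : Set E2) (u : E2 → ℝ) : ℝ :=
  (∫ x in Ω, en k u x) - ∫ x in frontier Ω, (u x) ^ 2 ∂(μH[1])

/-- The unbounded part of the complement. -/
def outer (Ω : Set E2) : Set E2 :=
  {x | x ∈ Ωᶜ ∧ ¬ Bornology.IsBounded (connectedComponentIn Ωᶜ x)}

/-- The filled domain. -/
def fill (Ω : Set E2) : Set E2 := (outer Ω)ᶜ

/-- `OuterLe k G V`: the infimum over Lipschitz `u ≥ 1` of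
`∫_G (e(u) - k²) - ∫_{∂G} u²` is at most `V`. -/
def OuterLe (k : ℝ) (G : Set E2) (V : ℝ) : Prop :=
  ∀ ε > 0, ∃ u : E2 → ℝ, (∃ K : ℝ≥0, LipschitzWith K u) ∧ (∀ x, 1 ≤ u x) ∧
    (∫ x in G, (en k u x - k ^ 2)) - (∫ x in frontier G, (u x) ^ 2 ∂(μH[1])) ≤ V + ε

/-- `HoleLe k K V`: the infimum over Lipschitz `u ≥ 1`, equal to `1` far away, of
`∫_{Kᶜ} (e(u) - k²) - ∫_{∂K} u²` is at most `V`. -/
def HoleLe (k : ℝ) (K : Set E2) (V : ℝ) : Prop :=
  ∀ ε > 0, ∃ u : E2 → ℝ, (∃ C : ℝ≥0, LipschitzWith C u) ∧ (∀ x, 1 ≤ u x) ∧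
    (∃ M : ℝ, ∀ x, M < ‖x‖ → u x = 1) ∧
    (∫ x in Kᶜ, (en k u x - k ^ 2)) - (∫ x in frontier K, (u x) ^ 2 ∂(μH[1])) ≤ V + ε

/-- A profile: a non-increasing function `w ≥ 1` of the depth `s ≥ 0` with derivative `dw`,
equal to `1` for `s ≥ σ`, constant for `s ≤ 0`. -/
structure Profile where
  w : ℝ → ℝ
  dw : ℝ → ℝ
  σ : ℝ
  σ_pos : 0 < σ
  one_le : ∀ s, 1 ≤ w s
  eq_one : ∀ s, σ ≤ s → w s = 1
  dw_zero : ∀ s, σ ≤ s → dw s = 0
  neg : ∀ s, s ≤ 0 → w s = w 0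
  dw_nonpos : ∀ s, 0 ≤ s → dw s ≤ 0
  dw_cont : ContinuousOn dw (Ici 0)
  deriv : ∀ s, 0 < s → HasDerivAt w (dw s) s
  w_cont : Continuous w

/-- Energy density of a profile minus its value for the constant one. -/
noncomputable def Profile.g (k : ℝ) (w : Profile) (s : ℝ) : ℝ :=
  (w.dw s) ^ 2 + k ^ 2 * ((w.w s) ^ 2 - 1)

/-- Price `w(0)² - ∫ g`. -/
noncomputable def Profile.q (k : ℝ) (w : Profile) : ℝ :=
  (w.w 0) ^ 2 - ∫ s in (0 : ℝ)..w.σ, w.g k s

/-- First moment `∫ g(s) s ds`. -/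
noncomputable def Profile.m (k : ℝ) (w : Profile) : ℝ :=
  ∫ s in (0 : ℝ)..w.σ, w.g k s * s

/-- Perimeter: one dimensional Hausdorff measure of the frontier. -/
noncomputable def per (K : Set E2) : ℝ := (μH[1] (frontier K)).toReal

/-- Area. -/
noncomputable def area (K : Set E2) : ℝ := (volume K).toReal

/-- The main theorem in the scaled form `α = -1`, area `A → ∞`. -/
def MainScaled : Prop :=
  ∃ A₀ : ℝ, 0 < A₀ ∧ ∀ A : ℝ, A₀ ≤ A → ∃ r R : ℝ, 0 < r ∧ r < R ∧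
    volume (annulus r R) = ENNReal.ofReal A ∧
    ∀ Ω : Set E2, Admissible Ω → volume Ω = ENNReal.ofReal A →
      lam (-1) Ω ≤ lam (-1) (annulus r R)

/-- The main theorem (Q1 of MP_4b551e_an). -/
def MainTheorem : Prop :=
  ∀ A : ℝ, 0 < A → ∃ αs : ℝ, αs < 0 ∧ ∀ α : ℝ, α < αs → ∃ r R : ℝ, 0 < r ∧ r < R ∧
    Admissible (annulus r R) ∧ volume (annulus r R) = ENNReal.ofReal A ∧
    ∀ Ω : Set E2, Admissible Ω → volume Ω = ENNReal.ofReal A →
      lam α Ω ≤ lam α (annulus r R)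

end Pool.Agent.Robin
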