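import Pool.Agent.Work.MP_4b551e_an.Geo

/-!
# MP_4b551e_an: definitions for the outer part (helper29)

Polygons with equally spaced normals, the baseline function, pockets.
-/

open MeasureTheory Set Metric
open scoped ENNReal NNReal Pointwise RealInnerProductSpace

namespace Pool.Agent.Robin

/-! ### Polygons with equally spaced normals -/

/-- Angle step. -/
noncomputable def dl (N : ℕ) : ℝ := 2 * Real.pi / N

/-- The `i`-th normal. -/
noncomputable def nv (N : ℕ) (i : ℤ) : E2 := dirv (i * dl N)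

/-- The `i`-th tangent vector. -/
noncomputable def tv (N : ℕ) (i : ℤ) : E2 := rot (nv N i)

/-- The `i`-th vertex: intersection of the lines `i` and `i + 1`. -/
noncomputable def vx (N : ℕ) (c : ℤ → ℝ) (i : ℤ) : E2 :=
  c i • nv N i + ((c (i + 1) - c i * Real.cos (dl N)) / Real.sin (dl N)) • tv N i

/-- The length of the `i`-th edge (from vertex `i - 1` to vertex `i`). -/
noncomputable def el (N : ℕ) (c : ℤ → ℝ) (i : ℤ) : ℝ :=
  (c (i + 1) + c (i - 1) - 2 * c i * Real.cos (dl N)) / Real.sin (dl N)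

/-- Support numbers of a polygon with `N` equally spaced normals, containing the origin inside;
edges of length `0` are allowed. -/
structure Supp (N : ℕ) (c : ℤ → ℝ) : Prop where
  N_le : 8 ≤ N
  per : ∀ i, c (i + N) = c i
  pos : ∀ i, 0 < c i
  el_nonneg : ∀ i, 0 ≤ el N c i

/-- The polygon. -/
def poly (N : ℕ) (c : ℤ → ℝ) : Set E2 := {x | ∀ i : ℤ, ⟪x, nv N i⟫ ≤ c i}

/-- Open half strip over the `i`-th edge. -/
def rect (N : ℕ) (c : ℤ → ℝ) (i : ℤ) : Set E2 :=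
  {x | c i < ⟪x, nv N i⟫ ∧ ⟪vx N c (i - 1), tv N i⟫ < ⟪x, tv N i⟫ ∧
    ⟪x, tv N i⟫ < ⟪vx N c i, tv N i⟫}

/-- Open sector with vertex `v` and angles in `(a, b)`. -/
def cone (v : E2) (a b : ℝ) : Set E2 :=
  {x | ∃ d θ : ℝ, 0 < d ∧ a < θ ∧ θ < b ∧ x = v + d • dirv θ}

/-- Open sector at the `i`-th vertex between the normals `i` and `i + 1`. -/
def sect (N : ℕ) (c : ℤ → ℝ) (i : ℤ) : Set E2 :=
  cone (vx N c i) (i * dl N) ((i + 1) * dl N)

/-- `P` is the nearest point projection onto the convex set `D`. -/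
def IsProj (D : Set E2) (P : E2 → E2) : Prop :=
  ∀ x, P x ∈ D ∧ ∀ y ∈ D, ⟪x - P x, y - P x⟫ ≤ 0

/-- Support function of the polygon with respect to the point `a`, plus `r₀`. -/
noncomputable def Hf (N : ℕ) (c : ℤ → ℝ) (a : E2) (r₀ θ : ℝ) : ℝ :=
  ⟪vx N c ⌊θ / dl N⌋ - a, dirv θ⟫ + r₀

/-- Right derivative of `Hf`. -/
noncomputable def dHf (N : ℕ) (c : ℤ → ℝ) (a : E2) (θ : ℝ) : ℝ :=
  ⟪vx N c ⌊θ / dl N⌋ - a, rot (dirv θ)⟫

/-- Mean of `Hf`. -/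
noncomputable def Rc (N : ℕ) (c : ℤ → ℝ) (a : E2) (r₀ : ℝ) : ℝ :=
  (∫ θ in (0 : ℝ)..2 * Real.pi, Hf N c a r₀ θ) / (2 * Real.pi)

/-! ### The baseline function -/

/-- `W(d)² - 1` where `d` is the distance from the core polygon. -/
noncomputable def Yp (w : Profile) (r₀ d₁ d : ℝ) : ℝ :=
  if d ≤ r₀ then (w.w (r₀ - d)) ^ 2 - 1
  else (w.w 0) ^ 2 * Real.exp (2 * (min d d₁ - r₀)) - 1

/-- Derivative of `Yp` away from `r₀` and `d₁`. -/
noncomputable def dYp (w : Profile) (r₀ d₁ d : ℝ) : ℝ :=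
  if d ≤ r₀ then -2 * w.w (r₀ - d) * w.dw (r₀ - d)
  else if d ≤ d₁ then 2 * (w.w 0) ^ 2 * Real.exp (2 * (d - r₀)) else 0

/-- The modulation `V`. -/
noncomputable def Vf (P : E2 → E2) (a : E2) (r₀ ρ : ℝ) (x : E2) : ℝ :=
  (⟪P x - a, (max ‖x - P x‖ (r₀ / 2))⁻¹ • (x - P x)⟫ + r₀) / ρ

/-- The baseline function. -/
noncomputable def uf (w : Profile) (P : E2 → E2) (a : E2) (r₀ ρ d₁ : ℝ) (x : E2) : ℝ :=
  Real.sqrt (1 + Vf P a r₀ ρ x * Yp w r₀ d₁ ‖x - P x‖)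

/-- Energy density in a rectangle at depth `s`. -/
noncomputable def fr (k : ℝ) (w : Profile) (V s : ℝ) : ℝ :=
  V ^ 2 * (w.w s) ^ 2 * (w.dw s) ^ 2 / (1 + V * ((w.w s) ^ 2 - 1)) +
    k ^ 2 * (V * ((w.w s) ^ 2 - 1))

/-- Energy density in a sector at depth `s`, `V'` is the derivative of `V` with respect to
the angle. -/
noncomputable def fs (k : ℝ) (w : Profile) (r₀ V V' s : ℝ) : ℝ :=
  fr k w V s + V' ^ 2 * ((w.w s) ^ 2 - 1) ^ 2 /
    (4 * (r₀ - s) ^ 2 * (1 + V * ((w.w s) ^ 2 - 1)))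

/-- Bounds for the profile used in the baseline estimate, `V₀` a lower bound for `V`. -/
structure BaseHyp (k : ℝ) (w : Profile) (ρ₁ : ℝ) : Prop where
  one_lt : 1 < k
  k_le : k ≤ 2
  q_le : w.q k ≤ -2
  w0 : 2 ≤ (w.w 0) ^ 2
  rho : 200 ≤ ρ₁
  sigma : w.σ ≤ ρ₁ / 100
  sq : ∫ s in (0 : ℝ)..w.σ, ((w.w s) ^ 2 - 1) ≤ ρ₁ ^ 2 / 1000
  h2 : ∫ s in (0 : ℝ)..w.σ, (w.dw s) ^ 2 / (w.w s) ^ 4 ≤ 1
  curv : ρ₁ * (k ^ 2 - 1) ≤ 2

/-- The baseline statement for a convex body `C` with outer radius `R` (for the area). -/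
def BaseLe (k : ℝ) (w : Profile) (C : Set E2) (R U₀ : ℝ) : Prop :=
  ∀ ε > 0, ∃ u : E2 → ℝ, (∃ K : ℝ≥0, LipschitzWith K u) ∧ (∀ x, 1 ≤ u x) ∧
    (∀ x ∈ frontier C, U₀ ≤ (u x) ^ 2) ∧
    (∫⁻ x in C, ENNReal.ofReal (en k u x - k ^ 2)) + ENNReal.ofReal (2 * Real.pi * w.m k) ≤
      (∫⁻ x in frontier C, ENNReal.ofReal ((u x) ^ 2) ∂(μH[1])) +
        ENNReal.ofReal (2 * Real.pi * (- w.q k) * R + ε)

/-! ### Pockets -/

/-- The convex hull of the closure. -/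
def hull (G : Set E2) : Set E2 := convexHull ℝ (closure G)

/-- The part of the interior of the hull which is outside the closure of `G`. -/
def ext (G : Set E2) : Set E2 := interior (hull G) \ closure G

/-- `Q` is a pocket: a component of `ext G`. -/
def Pocket (G Q : Set E2) : Prop := ∃ z ∈ ext G, Q = connectedComponentIn (ext G) z

/-- The mouth points of a pocket. -/
def mouth (G Q : Set E2) : Set E2 := frontier Q ∩ (frontier (hull G) \ closure G)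

/-- `ν` is an outer normal of the hull at `x`. -/
def Sup (G : Set E2) (x ν : E2) : Prop := ‖ν‖ = 1 ∧ x ∈ hull G ∧ ∀ y ∈ hull G, ⟪y - x, ν⟫ ≤ 0

/-- All pockets have depth at most `s` below their mouths. -/
def Depth (G : Set E2) (s : ℝ) : Prop :=
  ∀ Q, Pocket G Q → ∀ x₁ ∈ mouth G Q, ∀ ν : E2, Sup G x₁ ν → ∀ z ∈ Q, ⟪x₁ - z, ν⟫ ≤ s

/-- Crossing lemma in a rectangle. -/
def CrossLem : Prop :=
  ∀ (X Y : ℝ) (γ β : ℝ → E2), 0 < X → 0 < Y → ContinuousOn γ (Icc 0 1) →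
    ContinuousOn β (Icc 0 1) →
    (∀ t ∈ Icc (0 : ℝ) 1, |γ t 0| ≤ X ∧ |γ t 1| ≤ Y) →
    (∀ t ∈ Icc (0 : ℝ) 1, |β t 0| ≤ X ∧ |β t 1| ≤ Y) →
    γ 0 0 = -X → γ 1 0 = X → β 0 1 = -Y → β 1 1 = Y →
    ∃ s ∈ Icc (0 : ℝ) 1, ∃ t ∈ Icc (0 : ℝ) 1, γ s = β t

end Pool.Agent.Robin
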