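import Pool.Agent.Work.MP_4b551e_an.Defs

/-!
# MP_4b551e_an: definitions for the geometric foundations (helper35)
-/

open MeasureTheory Set Metric
open scoped ENNReal NNReal Pointwise RealInnerProductSpace

namespace Pool.Agent.Robin

/-- Coordinates in the chart `(p, L)`. -/
noncomputable def cx (L : E2 ≃ₗᵢ[ℝ] E2) (p x : E2) : ℝ := (L (x - p)) 0

/-- Coordinates in the chart `(p, L)`. -/
noncomputable def cy (L : E2 ≃ₗᵢ[ℝ] E2) (p x : E2) : ℝ := (L (x - p)) 1

/-- Inside the box the closed set `K` is the closed epigraph of the Lipschitz function `f`. -/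
structure Chart (K : Set E2) (p : E2) (L : E2 ≃ₗᵢ[ℝ] E2) (f : ℝ → ℝ) (C : ℝ≥0) (a b : ℝ) :
    Prop where
  a_pos : 0 < a
  b_pos : 0 < b
  lip : LipschitzWith C f
  f0 : f 0 = 0
  f_lt : ∀ t, |t| ≤ a → |f t| < b
  mem : ∀ x, |cx L p x| < a → |cy L p x| < b → (x ∈ K ↔ f (cx L p x) ≤ cy L p x)

/-- Closed sets with Lipschitz boundary. -/
def LipClosed (K : Set E2) : Prop :=
  IsClosed K ∧ ∀ p ∈ frontier K, ∃ (L : E2 ≃ₗᵢ[ℝ] E2) (f : ℝ → ℝ) (C : ℝ≥0) (a b : ℝ),
    Chart K p L f C a b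

/-- Unit vector with angle `θ`. -/
noncomputable def dirv (θ : ℝ) : E2 := !₂[Real.cos θ, Real.sin θ]

/-- Rotation by a right angle. -/
noncomputable def rot (v : E2) : E2 := !₂[-(v 1), v 0]

/-- The line `⟨x, ν⟩ = c`. -/
def line (ν : E2) (c : ℝ) : Set E2 := {x | ⟪x, ν⟫ = c}

/-- The closed strip `c ≤ ⟨x, ν⟩ ≤ d`. -/
def strip (ν : E2) (c d : ℝ) : Set E2 := {x | c ≤ ⟪x, ν⟫ ∧ ⟪x, ν⟫ ≤ d}

/-- Number of points of `S` on the line `⟨x, ν⟩ = c`. -/
noncomputable def crs (S : Set E2) (ν : E2) (c : ℝ) : ℝ≥0∞ := ((S ∩ line ν c).encard : ℝ≥0∞)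

/-- Dimension of the space of locally constant functions with values in `ZMod 2`
(the number of connected components, if finite). -/
noncomputable def b0 (X : Type) [TopologicalSpace X] : ℕ∞ :=
  Cardinal.toENat (Module.rank (ZMod 2) (LocallyConstant X (ZMod 2)))

/-- `b0` of a subset of the plane. -/
noncomputable def bs (X : Set E2) : ℕ∞ := b0 X

/-- Integral of the number of components of the sections by the lines with normal `ν`. -/
noncomputable def Ncomp (K : Set E2) (ν : E2) : ℝ≥0∞ := ∫⁻ c : ℝ, ((bs (K ∩ line ν c) : ℕ∞) : ℝ≥0∞)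

/-- The segment from `0` to `h`. -/
def seg (h : E2) : Set E2 := segment ℝ 0 h

/-- Decomposition of the complement of an admissible set: the unbounded part `outer Ω` and
finitely many holes. -/
structure Decomp (Ω : Set E2) (N : ℕ) (H : Fin N → Set E2) : Prop where
  compact : ∀ i, IsCompact (H i)
  conn : ∀ i, IsConnected (H i)
  lip : ∀ i, LipClosed (H i)
  disj : Pairwise (Function.onFun Disjoint H)
  disj_outer : ∀ i, Disjoint (H i) (outer Ω)
  compl : Ωᶜ = outer Ω ∪ ⋃ i, H i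
  fr : frontier Ω = frontier (outer Ω) ∪ ⋃ i, frontier (H i)
  outer_lip : LipClosed (outer Ω)
  outer_conn : IsConnected (outer Ω)
  fill_adm : Admissible (fill Ω)

end Pool.Agent.Robin
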