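import Mathlib

/-!
# The first Robin eigenvalue on planar Lipschitz domains: definitions

These are the only definitions used by the statement of the final theorem.
-/

open MeasureTheory Set Filter
open scoped ENNReal NNReal ContDiff RealInnerProductSpace Topology

namespace Pool.Agent.RobinH

/-- The Euclidean plane. -/
abbrev Plane := EuclideanSpace ℝ (Fin 2)

/-- Lipschitz boundary: near every boundary point `p`, in suitable Cartesian coordinates
(`L` is a linear isometry), the set is the strict subgraph of a Lipschitz function inside an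
open box centred at `p`. -/
def LipschitzBoundary (Ω : Set Plane) : Prop :=
  ∀ p ∈ frontier Ω, ∃ (L : Plane ≃ₗᵢ[ℝ] Plane) (f : ℝ → ℝ) (K : ℝ≥0) (a b : ℝ),
    0 < a ∧ 0 < b ∧ LipschitzWith K f ∧
    ∀ x : Plane, |(L (x - p)) 0| < a → |(L (x - p)) 1| < b →
      (x ∈ Ω ↔ (L (x - p)) 1 < f ((L (x - p)) 0))

/-- Admissible sets: bounded connected (so non-empty) open sets with Lipschitz boundary. -/
structure Admissible (Ω : Set Plane) : Prop where
  isOpen : IsOpen Ω
  isConnected : IsConnected Ω
  isBounded : Bornology.IsBounded Ω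
  lip : LipschitzBoundary Ω

/-- Arc length on the boundary of `Ω`: one dimensional Hausdorff measure on the frontier. -/
noncomputable def arcLength (Ω : Set Plane) : Measure Plane :=
  (Measure.hausdorffMeasure 1).restrict (frontier Ω)

/-- `g` is the weak gradient of `u` in the open set `Ω`. -/
def WeakGradient (Ω : Set Plane) (u : Plane → ℝ) (g : Plane → Plane) : Prop :=
  ∀ φ : Plane → ℝ, ContDiff ℝ ∞ φ → HasCompactSupport φ → tsupport φ ⊆ Ω → ∀ e : Plane,
    ∫ x in Ω, u x * fderiv ℝ φ x e = -∫ x in Ω, ⟪g x, e⟫ * φ x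

/-- `u` belongs to `H¹(Ω)` and `g` is its gradient. -/
structure H1 (Ω : Set Plane) (u : Plane → ℝ) (g : Plane → Plane) : Prop where
  mem : MemLp u 2 (volume.restrict Ω)
  grad_mem : MemLp g 2 (volume.restrict Ω)
  weak : WeakGradient Ω u g

/-- `t` is the trace on the boundary of the function `u` of `H¹(Ω)` with gradient `g`: the limit
in `L²(∂Ω)` of the boundary values of Lipschitz functions converging to `u` in `H¹(Ω)`.
For admissible `Ω` Lipschitz functions are dense in `H¹(Ω)` and the trace is continuous, so that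
every `u` in `H¹(Ω)` has a trace, unique up to sets of arc length zero. -/
structure IsTrace (Ω : Set Plane) (u : Plane → ℝ) (g : Plane → Plane) (t : Plane → ℝ) :
    Prop where
  mem : MemLp t 2 (arcLength Ω)
  lim : ∃ v : ℕ → Plane → ℝ, (∀ n, ∃ K : ℝ≥0, LipschitzWith K (v n)) ∧
    Tendsto (fun n => eLpNorm (fun x => v n x - u x) 2 (volume.restrict Ω)) atTop (𝓝 0) ∧
    Tendsto (fun n => eLpNorm (fun x => gradient (v n) x - g x) 2 (volume.restrict Ω))
      atTop (𝓝 0) ∧
    Tendsto (fun n => eLpNorm (fun x => v n x - t x) 2 (arcLength Ω)) atTop (𝓝 0)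

/-- The first Robin eigenvalue with parameter `α`: the infimum over all `u ≠ 0` in `H¹(Ω)`, with
gradient `g` and trace `t`, of `(∫_Ω |g|² + α ∫_∂Ω t²) / ∫_Ω u²`. -/
noncomputable def robinEigenvalue (α : ℝ) (Ω : Set Plane) : EReal :=
  ⨅ (u : Plane → ℝ) (g : Plane → Plane) (t : Plane → ℝ) (_ : H1 Ω u g) (_ : IsTrace Ω u g t)
    (_ : 0 < ∫ x in Ω, u x ^ 2),
    ((((∫ x in Ω, ‖g x‖ ^ 2) + α * ∫ x, t x ^ 2 ∂(arcLength Ω)) / ∫ x in Ω, u x ^ 2 : ℝ) : EReal)

/-- The open annulus with centre `0` and radii `r < R`. -/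
def annulus (r R : ℝ) : Set Plane := {x | r < ‖x‖ ∧ ‖x‖ < R}

end Pool.Agent.RobinH
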